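import Pool.Agent.Q206.ME.Red
import Pool.Agent.Q206.ME.JP
import Pool.Agent.Q206.ME.JGeo1
import Pool.Agent.Q206.ME.JGeo2
import Pool.Agent.Q206.ME.JFwd
import Pool.Agent.Q206.ME.JBwd
import Pool.Agent.Q206.ME.JVal
import Pool.Agent.Q206.ME.JNet1
import Pool.Agent.Q206.ME.JNet2
import Pool.Agent.Q206.ME.JMatch
import Pool.Agent.Q206.ME.JPick
import Pool.Agent.Q206.ME.JSize
import Pool.Agent.Q206.ME.JEx
import Pool.Agent.Q206.ME.JOracle
import Pool.Agent.Q206.ME.JPoly
import Pool.Agent.Q206.ME.JList

/-!
# Computing the Morse ensemble polynomial is `#P`-hard

The definitions are in `Pool/Agent/Q206/ME/Defs.lean`.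

Proof. The permanent of 0-1 matrices is reduced to the number of the states without a cycle of active
arcs of a network of switches, and this number to the number of the acyclic matchings of a
2-dimensional complex which have all vertices and no triangle as critical simplices. The main gadget is
a complex with 7 vertices, 13 triangles and one free edge (the exit): every acyclic matching
without critical triangles matches the exit, and from any of its edges there is a path to the exit; a
second edge (the tap) is glued to a port of a switch. Full matchings of the whole complex correspond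
to the states of the switches without active cycle, each with the same number of matchings of the
gadgets, and this number is found with a second query (the network without arcs).
-/

namespace Pool.Agent.Results.MP_8e5830_lc.SharpPHard

open Pool.Agent.Q206.ME Pool.Agent.NPC

theorem result :
    -- hardness already for the complexes of dimension at most two
    (∀ d : ℕ, 2 ≤ d → ∀ g : List Bool → List Bool, Computes d g → SharpPHard g) ∧
    -- hardness for arbitrary dimension
    (∀ g : List Bool → List Bool, (∀ d, Computes d g) → SharpPHard g) ∧
    -- there are such functions `g`
    ∃ g : List Bool → List Bool, ∀ d, Computes d g := by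
  have h : ∀ d : ℕ, 2 ≤ d → ∀ g : List Bool → List Bool, Computes d g → SharpPHard g :=
    fun d hd g hg => hard s_P G1.geo1 G2.geo2 Fwd.fwd Bwd.bwd Val.val s_NET1 s_NET2 Match.main
      LL.main s_POLY Pick.main Size.main s_ORACLE d hd g hg
  refine ⟨h, fun g hg => h 2 le_rfl g (hg 2), ?_⟩
  classical
  refine ⟨fun x => if h : ∃ L : List (List ℕ), bits L = x then
    bits (Ex.exists_output (h.choose.map List.toFinset).toFinset).choose else [], ?_⟩
  intro d L K _ hL _
  have h : ∃ L' : List (List ℕ), bits L' = bits L := ⟨L, rfl⟩
  have h1 : h.choose = L := bits_injective h.choose_spec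
  have h2 : K = (h.choose.map List.toFinset).toFinset := by
    rw [h1]
    exact hL.2.2
  refine ⟨(Ex.exists_output (h.choose.map List.toFinset).toFinset).choose, ?_, ?_⟩
  · have := (Ex.exists_output (h.choose.map List.toFinset).toFinset).choose_spec
    rw [← h2] at this ⊢
    exact this
  · simp only [dif_pos h]

end Pool.Agent.Results.MP_8e5830_lc.SharpPHard
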